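import Pool.Agent.CYE.StmtsD

set_option autoImplicit false

/-!
# CYE, row YEX: expansion of the logarithmic derivative of the cyclotomic polynomial
-/

namespace Pool.Agent.CYE.H91

open Polynomial

theorem expand_dvd (f : ℤ[X]) (l : ℕ) : (X : ℤ[X]) ^ l ∣ expand ℤ l f - C (f.coeff 0) := by
  have h := congrArg (expand ℤ l) (divX_mul_X_add f)
  rw [map_add, map_mul, expand_X, expand_C] at h
  rw [← h]
  exact ⟨expand ℤ l f.divX, by ring⟩

theorem step (q m l : ℕ) (hm : 1 < m) (hl : l.Prime) (hlm : ¬ l ∣ m) (hq : q < l) :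
    (X : ℤ[X]) ^ (q + 1) ∣ cyclotomic (m * l) ℤ * cyclotomic m ℤ - 1 := by
  have h1 := expand_dvd (cyclotomic m ℤ) l
  rw [cyclotomic_expand_eq_cyclotomic_mul hl hlm, cyclotomic_coeff_zero ℤ hm, C_1] at h1
  exact (pow_dvd_pow X (Nat.succ_le_of_lt hq)).trans h1

theorem ab (q : ℕ) (hq : q.Prime) (n : ℕ) : Squarefree n → (∀ l : ℕ, l.Prime → l ∣ n → q < l) →
    ((X : ℤ[X]) ^ (q + 1) ∣ cyclotomic (q * n) ℤ * (1 - X) - (1 - X ^ q)) ∨
      ((X : ℤ[X]) ^ (q + 1) ∣ cyclotomic (q * n) ℤ * (1 - X ^ q) - (1 - X)) := by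
  induction n using induction_on_primes with
  | zero => intro h; exact absurd h not_squarefree_zero
  | one =>
    intro _ _
    left
    have : Fact q.Prime := ⟨hq⟩
    have h := cyclotomic_prime_mul_X_sub_one ℤ q
    rw [mul_one]
    have h2 : cyclotomic q ℤ * (1 - X) - (1 - X ^ q) = 0 := by
      linear_combination -h
    rw [h2]
    exact dvd_zero _
  | prime_mul l a hl ih =>
    intro hs hp
    have ha : Squarefree a := hs.squarefree_of_dvd (dvd_mul_left a l)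
    have hla : ¬ l ∣ a := by
      intro h
      have h1 : l * l ∣ l * a := mul_dvd_mul_left l h
      exact hl.one_lt.ne' (Nat.isUnit_iff.1 (hs l h1))
    have hql : q < l := hp l hl (dvd_mul_right l a)
    have hlq : ¬ l ∣ q * a := by
      rw [hl.dvd_mul]
      rintro (h | h)
      · exact absurd (Nat.le_of_dvd hq.pos h) (not_le.2 hql)
      · exact hla h
    have ha0 : 0 < a := Nat.pos_of_ne_zero (by
      rintro rfl
      exact not_squarefree_zero ha)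
    have hm : 1 < q * a := lt_of_lt_of_le hq.one_lt (Nat.le_mul_of_pos_right q ha0)
    obtain ⟨r, hr⟩ := step q (q * a) l hm hl hlq hql
    have he : q * (l * a) = q * a * l := by ring
    rw [he]
    rcases ih ha (fun p hpp hpa => hp p hpp (hpa.mul_left l)) with h | h
    · right
      obtain ⟨s, hs'⟩ := h
      refine ⟨(1 - X) * r - cyclotomic (q * a * l) ℤ * s, ?_⟩
      linear_combination (1 - X : ℤ[X]) * hr - cyclotomic (q * a * l) ℤ * hs'
    · left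
      obtain ⟨s, hs'⟩ := h
      refine ⟨(1 - X ^ q) * r - cyclotomic (q * a * l) ℤ * s, ?_⟩
      linear_combination (1 - X ^ q : ℤ[X]) * hr - cyclotomic (q * a * l) ℤ * hs'

theorem deriv_aux (k : ℕ) : (C ((k : ℤ) + 1) : ℤ[X]) = (k : ℤ[X]) + 1 ∧
    (C ((k : ℤ) + 1 + 1) : ℤ[X]) = (k : ℤ[X]) + 1 + 1 ∧
    (C (((k + 1 : ℕ) : ℤ)) : ℤ[X]) = (k : ℤ[X]) + 1 := by
  refine ⟨by simp, by simp, by simp⟩

/-- case `ε = -1` -/
theorem case_a (P : ℤ[X]) (q : ℕ) (hq : 0 < q)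
    (h : (X : ℤ[X]) ^ (q + 1) ∣ P * (1 - X) - (1 - X ^ q)) :
    (X : ℤ[X]) ^ (q + 1) ∣ (1 - X) * (X * derivative P) +
      C (-1) * (P * (X - C (q : ℤ) * X ^ q * (1 - X))) := by
  obtain ⟨R, hR⟩ := h
  obtain ⟨k, rfl⟩ : ∃ k, q = k + 1 := ⟨q - 1, by omega⟩
  have hd := congrArg derivative hR
  obtain ⟨h1, h2, h3⟩ := deriv_aux k
  simp only [derivative_sub, derivative_mul, derivative_one, derivative_X, derivative_X_pow,
    Nat.add_sub_cancel, zero_sub, mul_neg, mul_one, Nat.cast_add, Nat.cast_one, h1, h2] at hd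
  rw [h3, C_neg, C_1]
  refine ⟨derivative R * X + ((k : ℤ[X]) + 1 + 1) * R + ((k : ℤ[X]) + 1) * (X ^ (k + 1) * R - X ^ k), ?_⟩
  linear_combination (X : ℤ[X]) * hd + ((k : ℤ[X]) + 1) * X ^ (k + 1) * hR

/-- case `ε = 1` -/
theorem case_b (P : ℤ[X]) (q : ℕ) (hq : 0 < q)
    (h : (X : ℤ[X]) ^ (q + 1) ∣ P * (1 - X ^ q) - (1 - X)) :
    (X : ℤ[X]) ^ (q + 1) ∣ (1 - X) * (X * derivative P) +
      C 1 * (P * (X - C (q : ℤ) * X ^ q * (1 - X))) := by
  obtain ⟨R, hR⟩ := h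
  obtain ⟨k, rfl⟩ : ∃ k, q = k + 1 := ⟨q - 1, by omega⟩
  have hd := congrArg derivative hR
  obtain ⟨h1, h2, h3⟩ := deriv_aux k
  simp only [derivative_sub, derivative_mul, derivative_one, derivative_X, derivative_X_pow,
    Nat.add_sub_cancel, zero_sub, mul_neg, mul_one, Nat.cast_add, Nat.cast_one, h1, h2] at hd
  rw [h3, C_1, one_mul]
  have hc : IsCoprime ((X : ℤ[X]) ^ (k + 1 + 1)) (1 - X ^ (k + 1)) := by
    apply IsCoprime.pow_left
    exact ⟨X ^ k, 1, by ring⟩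
  apply hc.dvd_of_dvd_mul_left
  refine ⟨(1 - X) * ((k : ℤ[X]) + 1) * (X ^ k * P + X ^ (k + 1) * R) +
    (1 - X) * (((k : ℤ[X]) + 1 + 1) * R + X * derivative R) +
    R * (X - ((k : ℤ[X]) + 1) * X ^ (k + 1) * (1 - X)), ?_⟩
  linear_combination (1 - X) * (X : ℤ[X]) * hd + (X - ((k : ℤ[X]) + 1) * X ^ (k + 1) * (1 - X)) * hR
    + (1 - X) * ((k : ℤ[X]) + 1) * X ^ (k + 1) * hR

/-- YEX -/
theorem yex : YexStmt := by
  intro m hm hodd hsq
  have hm1 : m ≠ 1 := by omega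
  have hq : m.minFac.Prime := Nat.minFac_prime hm1
  obtain ⟨n, hn⟩ := Nat.minFac_dvd m
  obtain ⟨q, hqd⟩ : ∃ q, q = m.minFac := ⟨_, rfl⟩
  rw [← hqd] at hq hn ⊢
  have hsn : Squarefree n := hsq.squarefree_of_dvd ⟨q, by rw [hn, mul_comm]⟩
  have hl : ∀ l : ℕ, l.Prime → l ∣ n → q < l := by
    intro l hl hln
    have h1 : q ≤ l := by
      rw [hqd]
      exact Nat.minFac_le_of_dvd hl.two_le (hln.trans ⟨q, by rw [hn, mul_comm]⟩)
    refine lt_of_le_of_ne h1 ?_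
    rintro rfl
    have h2 : q * q ∣ m := by
      rw [hn]
      exact mul_dvd_mul_left q hln
    exact hq.one_lt.ne' (Nat.isUnit_iff.1 (hsq q h2))
  have h := ab q hq n hsn hl
  rw [← hn] at h
  rcases h with h | h
  · exact ⟨-1, Or.inr rfl, case_a _ q hq.pos h⟩
  · exact ⟨1, Or.inl rfl, case_b _ q hq.pos h⟩

end Pool.Agent.CYE.H91
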